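import Pool.Agent.X120.Soft.Fin

/-!
# Relations between the values of several sequences
-/

set_option autoImplicit false

open Module

namespace Pool.Agent.X120.Soft

open Pool.Agent.Y916.Om Pool.Agent.X120.Rec

theorem final_val {k : ℕ} {σ : Type} [Fintype σ] [DecidableEq σ] (x : Fin (k + 1) → ℕ → σ → ℂ)
    (h : ∀ i, Rare (x i)) (δ d D : ℕ) (ε : ℝ) (hε : 0 < ε) :
    ∃ T₀ : ℕ, ∀ V : Submodule ℚ ℂ, Module.Finite ℚ V → finrank ℚ V ≤ D → ∀ T : ℕ, T₀ ≤ T →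
      ∃ S : Finset (Fin (k + 1) → ℕ), (S.card : ℝ) ≤ ε * (T : ℝ) ^ (k + 1) ∧
      ∀ n : Fin (k + 1) → ℕ, (∀ i, 1 ≤ n i ∧ n i ≤ T) →
        Related δ d V (fun p : Fin (k + 1) × σ => x p.1 (n p.1) p.2) → n ∈ S := by
  classical
  obtain ⟨X₀, htup⟩ := tuplesR (k + 1) x h d δ (1 + δ) (D + 0) 1 1 ε hε
  refine ⟨X₀, fun V hV hVD T hT => ?_⟩
  obtain ⟨w, c, hwc⟩ := coords V hV D hVD
  obtain ⟨S, hS, hmem⟩ := htup (Fin D ⊕ Fin 0) (Sum.elim w fun i => i.elim0) Finset.univ (by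
    rw [Finset.card_univ, Fintype.card_sum, Fintype.card_fin, Fintype.card_fin]) (Dom.univ _) T hT
  refine ⟨S, hS, fun n hn hrel => hmem n hn (related_badW (fun v hv => ?_) _ (fun p => ?_) hrel)⟩
  · rw [hwc v hv]
    refine Submodule.sum_mem _ fun j _ => ?_
    have h2 : ((c v j : ℚ) : ℂ) * w j = (c v j) • w j := by rw [Rat.smul_def]
    rw [h2]
    exact Submodule.smul_mem _ _ (Submodule.subset_span (Set.mem_insert_of_mem _ ⟨j, rfl⟩))
  · rw [sub_self]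
    exact Submodule.zero_mem _

end Pool.Agent.X120.Soft
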