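import Pool.Agent.X120.Soft.Exp
import Pool.Agent.X120.Fac.Fin
import Pool.Agent.X120.Orb.Fin

/-!
# The three classes of sequences
-/

set_option autoImplicit false

open Module Polynomial

namespace Pool.Agent.X120.Soft

open Pool.Agent.Y916.Om Pool.Agent.X120.Rec

/-- multiplicative recurrences -/
def MulRec (u : ℕ → ℂ) : Prop :=
  ∃ (m p q : ℕ) (γ : Fin p → ℂ) (z : Fin (q + 1) → ℂ) (n₀ : ℕ), (∀ j, γ j ≠ 0) ∧ (∀ t, IsAlgebraic ℚ (z t)) ∧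
    (∀ t, t ≠ 0 → ∀ i : ℕ, z t ≠ z 0 + i) ∧ ∀ n ≥ n₀, u n ≠ 0 ∧
      ∃ (c : Fin (m + 1) → ℤ) (a : Fin p → ℤ) (e : Fin (q + 1) → ℤ), c (Fin.last m) ≠ 0 ∧ e 0 ≠ 0 ∧
        ∏ i : Fin (m + 1), u (n + i) ^ c i = (∏ j, γ j ^ a j) * ∏ t, ((n : ℂ) + z t) ^ e t

/-- polynomial orbits -/
def OrbitSeq (u : ℕ → ℂ) : Prop :=
  ∃ (f P : ℂ[X]) (a : ℕ → ℂ), (∀ i, IsAlgebraic ℚ (f.coeff i)) ∧ (∀ i, IsAlgebraic ℚ (P.coeff i)) ∧
    1 ≤ f.natDegree ∧ 2 ≤ P.natDegree ∧ (¬ ∃ z, (∀ x, f.eval x = 0 ↔ x = z) ∧ ∀ x, P.eval x = z ↔ x = z) ∧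
    IsAlgebraic ℚ (a 0) ∧ (∀ n, a (n + 1) = P.eval (a n)) ∧ (∀ R : ℝ, ∃ n, R < ‖a n‖) ∧ ∀ n, u n = f.eval (a n)

/-- exponential sequences -/
def ExpSeq (u : ℕ → ℂ) : Prop :=
  ∃ (f : ℂ[X]) (ρ κ : ℂ), (∀ i, IsAlgebraic ℚ (f.coeff i)) ∧ 1 ≤ f.natDegree ∧ f.eval 0 ≠ 0 ∧
    IsAlgebraic ℚ ρ ∧ ρ ≠ 0 ∧ ‖ρ‖ ≠ 1 ∧ κ ≠ 0 ∧ ∀ n, u n = κ ^ n * f.eval (ρ ^ n)

theorem mulIndep_one {f : ℂ[X]} (hf : 1 ≤ f.natDegree) : MulIndep fun _ : Fin 1 => f := by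
  intro a b c h
  have hf0 : f ≠ 0 := by
    rintro rfl
    simp at hf
  simp only [Finset.univ_unique, Fin.default_eq_zero, Fin.isValue, Finset.prod_singleton] at h
  have hc : c ≠ 0 := by
    rintro rfl
    rw [C_0, zero_mul] at h
    exact pow_ne_zero _ hf0 h
  have h1 := congrArg natDegree h
  rw [natDegree_C_mul hc, natDegree_pow, natDegree_pow] at h1
  funext i
  rw [Subsingleton.elim i 0]
  exact Nat.eq_of_mul_eq_mul_right hf h1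

theorem Rare.unit {y : ℕ → ℂ} (h : Rare fun n (_ : Fin 1) => y n) : Rare fun n (_ : Unit) => y n := by
  intro d δ e τ A B ε hε
  obtain ⟨X₀, hX₀⟩ := h d δ e τ A B ε hε
  refine ⟨X₀, fun υ _ w T hT hD X hX => ?_⟩
  obtain ⟨S, hS, hm⟩ := hX₀ υ w T hT hD X hX
  refine ⟨S, hS, fun n h1 h2 hb => hm n h1 h2 ?_⟩
  obtain ⟨K, hK1, hK2, hK3⟩ := hb
  exact ⟨K, hK1, hK2, hK3.reindex (Equiv.ofUnique (Fin 1) Unit)⟩

theorem rare_of {u : ℕ → ℂ} (h : MulRec u ∨ OrbitSeq u ∨ ExpSeq u) :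
    Rare fun n (_ : Unit) => Complex.log (u n) := by
  rcases h with h | h | h
  · obtain ⟨m, p, q, γ, z, n₀, h1, h2, h3, h4⟩ := h
    exact X120.Fac.rareF u γ h1 z h2 h3 n₀ (fun n hn => (h4 n hn).1) fun n hn => (h4 n hn).2
  · obtain ⟨f, P, a, h1, h2, h3, h4, h5, h6, h7, h8, h9⟩ := h
    have h10 : (fun n (_ : Unit) => Complex.log (u n)) = fun n (_ : Unit) => Complex.log (f.eval (a n)) := by
      funext n _
      rw [h9]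
    rw [h10]
    exact X120.Orb.rareO f P h1 h2 h3 h4 h5 a h6 h7 h8
  · obtain ⟨f, ρ, κ, h1, h2, h3, h4, h5, h6, h7, h8⟩ := h
    have h10 : (fun n (_ : Unit) => Complex.log (u n)) = fun n (_ : Unit) => Complex.log (κ ^ n * f.eval (ρ ^ n)) := by
      funext n _
      rw [h8]
    rw [h10]
    exact Rare.unit (y := fun n => Complex.log (κ ^ n * f.eval (ρ ^ n)))
      (rareE (fun _ : Fin 1 => f) (fun _ => h1) (fun _ => h3) (mulIndep_one h2) ρ h4 h5 h6 (fun _ => κ) fun _ => h7)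

end Pool.Agent.X120.Soft
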