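import Pool.Agent.X120.Soft.Fin
import Pool.Agent.X120.Rec.CoreB

/-!
# Relations between logarithms over given constants
-/

set_option autoImplicit false

open Module

namespace Pool.Agent.X120.Soft

open Pool.Agent.Y916.Om Pool.Agent.X120.Rec

theorem finalB {k : ℕ} {σ : Type} [Fintype σ] [DecidableEq σ] (u : Fin (k + 1) → ℕ → σ → ℂ)
    (h : ∀ i, Rare fun n s => Complex.log (u i n s)) (d δ e τ A B : ℕ) (ε : ℝ) (hε : 0 < ε) :
    ∃ T₀ : ℕ, ∀ (υ : Type) [Fintype υ] (w : υ → ℂ) (T₁ : Finset υ), T₁.card = τ → Dom A B w T₁ → ∀ T : ℕ, T₀ ≤ T →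
      ∃ S : Finset (Fin (k + 1) → ℕ), (S.card : ℝ) ≤ ε * (T : ℝ) ^ (k + 1) ∧
      ∀ n : Fin (k + 1) → ℕ, (∀ i, 1 ≤ n i ∧ n i ≤ T) → ∀ l : Fin (k + 1) × σ → ℂ,
        (∀ p, Complex.exp (l p) = u p.1 (n p.1) p.2) → BadW d δ e w l → n ∈ S := by
  classical
  obtain ⟨X₀, htup⟩ := tuplesR (k + 1) (fun i n s => Complex.log (u i n s)) h d δ (e + δ) (τ + 1) A B ε hε
  refine ⟨X₀, fun υ _ w T₁ hT₁ hD T hT => ?_⟩
  obtain ⟨S, hS, hmem⟩ := htup (υ ⊕ Unit) (Sum.elim w fun _ => (2 * Real.pi * Complex.I : ℂ))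
    (T₁.disjSum Finset.univ) (by rw [Finset.card_disjSum, hT₁, Finset.card_univ, Fintype.card_unit])
    (by
      refine hD.of _ _ (fun j hj => ⟨Sum.inl j, Finset.inl_mem_disjSum.2 hj, rfl⟩) ?_
      rintro (j | j)
      · exact Or.inr ⟨j, rfl⟩
      · exact Or.inl (Finset.inr_mem_disjSum.2 (Finset.mem_univ _))) T hT
  refine ⟨S, hS, fun n hn l hl hrel => hmem n hn ?_⟩
  have h1 : BadW d δ e (Sum.elim w fun _ : Unit => (2 * Real.pi * Complex.I : ℂ)) l :=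
    hrel.mono fun j => Or.inr ⟨Sum.inl j, rfl⟩
  refine BadW.shift (fun p => ?_) h1
  refine Submodule.span_mono ?_ (log_sub_mem (hl p))
  rintro _ ⟨j, rfl⟩
  exact Set.mem_insert_of_mem _ ⟨Sum.inr j, rfl⟩

end Pool.Agent.X120.Soft
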