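import Pool.Agent.X120.Soft.Fin

/-!
# Windows with a stride and with base points outside of a set of density zero
-/

set_option autoImplicit false

open Module Filter

namespace Pool.Agent.X120.Soft

open Pool.Agent.Y916.Om Pool.Agent.X120.Rec

/-- density zero -/
def DZ (B : ℕ → Prop) : Prop :=
  ∀ ε : ℝ, 0 < ε → ∃ X₀ : ℕ, ∀ X ≥ X₀, ∃ S : Finset ℕ, (S.card : ℝ) ≤ ε * X ∧ ∀ n, n ≤ X → B n → n ∈ S

theorem DZ.mono {B B' : ℕ → Prop} (h : DZ B) (hB : ∀ n, B' n → B n) : DZ B' := fun ε hε => by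
  obtain ⟨X₀, hX₀⟩ := h ε hε
  refine ⟨X₀, fun X hX => ?_⟩
  obtain ⟨S, hS, hm⟩ := hX₀ X hX
  exact ⟨S, hS, fun n hn hB' => hm n hn (hB n hB')⟩

theorem DZ.union {ι : Type} (s : Finset ι) {B : ι → ℕ → Prop} (h : ∀ i ∈ s, DZ (B i)) :
    DZ fun n => ∃ i ∈ s, B i n := by
  classical
  intro ε hε
  have h' : ∀ i ∈ s, ∃ X₀ : ℕ, ∀ X ≥ X₀, ∃ S : Finset ℕ, (S.card : ℝ) ≤ (ε / (s.card + 1)) * X ∧
      ∀ n, n ≤ X → B i n → n ∈ S := fun i hi => h i hi _ (by positivity)
  choose! X₀ hX₀ using h'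
  refine ⟨∑ i ∈ s, X₀ i, fun X hX => ?_⟩
  have h2 : ∀ i ∈ s, ∃ S : Finset ℕ, (S.card : ℝ) ≤ (ε / (s.card + 1)) * X ∧ ∀ n, n ≤ X → B i n → n ∈ S :=
    fun i hi => hX₀ i hi X ((Finset.single_le_sum (f := X₀) (fun _ _ => Nat.zero_le _) hi).trans hX)
  choose! S hS hm using h2
  refine ⟨s.biUnion S, ?_, ?_⟩
  · have h3 : ((s.biUnion S).card : ℝ) ≤ s.card * ((ε / (s.card + 1)) * X) := by
      have h4 : ((s.biUnion S).card : ℝ) ≤ ∑ i ∈ s, ((S i).card : ℝ) := by exact_mod_cast Finset.card_biUnion_le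
      refine h4.trans ((Finset.sum_le_card_nsmul _ _ _ hS).trans ?_)
      rw [nsmul_eq_mul]
    refine h3.trans ?_
    have h5 : (0 : ℝ) ≤ X := Nat.cast_nonneg X
    have h6 : (s.card : ℝ) * (ε / (s.card + 1)) ≤ ε := by
      rw [mul_div_assoc', div_le_iff₀ (by positivity)]
      nlinarith
    calc (s.card : ℝ) * (ε / (s.card + 1) * X) = (s.card * (ε / (s.card + 1))) * X := by ring
      _ ≤ ε * X := by gcongr
  · rintro n hn ⟨i, hi, hB⟩
    exact Finset.mem_biUnion.2 ⟨i, hi, hm i hi n hn hB⟩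

theorem DZ.lt (m : ℕ) : DZ fun n => n < m := by
  intro ε hε
  obtain ⟨X₀, hX₀⟩ := exists_nat_gt (m / ε)
  refine ⟨X₀, fun X hX => ⟨Finset.range m, ?_, fun n _ hn => Finset.mem_range.2 hn⟩⟩
  rw [Finset.card_range]
  have h1 : (m : ℝ) / ε < X := hX₀.trans_le (by exact_mod_cast hX)
  rw [div_lt_iff₀ hε] at h1
  linarith

theorem DZ.or {B B' : ℕ → Prop} (h : DZ B) (h' : DZ B') : DZ fun n => B n ∨ B' n := by
  have h1 := DZ.union (Finset.univ : Finset Bool) (B := fun b => if b then B else B') (by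
    rintro (_ | _) _
    · simpa using h'
    · simpa using h)
  refine h1.mono ?_
  rintro n (hn | hn)
  · exact ⟨true, Finset.mem_univ _, by simpa using hn⟩
  · exact ⟨false, Finset.mem_univ _, by simpa using hn⟩

/-- counting by windows of the same length and with a stride -/
theorem count_stride (M s : ℕ) (hs : 1 ≤ s) (ε : ℝ) (hε : 0 < ε) : ∃ L : ℕ, 1 ≤ L ∧ ∀ B : ℕ → Prop, DZ B →
    ∃ X₀ : ℕ, ∀ P : ℕ → Prop,
    (∀ n, ¬ B n → ∃ S : Finset ℕ, S.card ≤ M ∧ ∀ g, 1 ≤ g → g ≤ L → P (n + s * g) → g ∈ S) →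
    ∀ X ≥ X₀, ∃ S : Finset ℕ, (S.card : ℝ) ≤ ε * X ∧ ∀ n, 1 ≤ n → n ≤ X → P n → n ∈ S := by
  classical
  obtain ⟨L, hL⟩ := exists_nat_gt (3 * M / ε)
  have hL0 : (0 : ℝ) < L := lt_of_le_of_lt (by positivity) hL
  have hL1 : 1 ≤ L := by exact_mod_cast hL0
  have hs0 : (0 : ℝ) < s := by exact_mod_cast hs
  refine ⟨L, hL1, fun B hB => ?_⟩
  obtain ⟨X₁, hX₁⟩ := hB (ε / (3 * L)) (by positivity)
  obtain ⟨X₂, hX₂⟩ := exists_nat_gt (3 * ((s : ℝ) + s * M) / ε)
  refine ⟨max X₁ X₂, fun P hP X hX => ?_⟩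
  obtain ⟨SB, hSB, hmB⟩ := hX₁ X ((le_max_left _ _).trans hX)
  choose! S hS hm using hP
  set bases : Finset (ℕ × ℕ) := Finset.range s ×ˢ Finset.range (X / (s * L) + 1) with hbases
  set bs : ℕ × ℕ → ℕ := fun p => p.1 + s * L * p.2 with hbs
  refine ⟨Finset.range s ∪ ((bases.biUnion fun p => (if B (bs p) then ∅ else S (bs p)).image fun g => bs p + s * g) ∪
    (SB ×ˢ Finset.Icc 1 L).image fun q => q.1 + s * q.2), ?_, ?_⟩
  swap
  · intro n h1 hnX hPn
    by_cases hns : n < s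
    · exact Finset.mem_union_left _ (Finset.mem_range.2 hns)
    push Not at hns
    refine Finset.mem_union_right _ ?_
    -- decomposition of `n`
    have h2 := Nat.div_add_mod n s
    have h3 := Nat.mod_lt n hs
    set t := n / s with ht
    set ρ := n % s with hρ
    have ht1 : 1 ≤ t := (Nat.le_div_iff_mul_le hs).2 (by omega)
    have h4 := Nat.div_add_mod (t - 1) L
    have h5 := Nat.mod_lt (t - 1) hL1
    set j := (t - 1) / L with hj
    set g := (t - 1) % L with hg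
    have hn : n = bs (ρ, j) + s * (g + 1) := by
      have h6 : t = L * j + g + 1 := by omega
      simp only [hbs]
      rw [← h2, h6]
      ring
    have hbX : bs (ρ, j) ≤ X := by
      rw [hn] at hnX
      omega
    by_cases hBb : B (bs (ρ, j))
    · refine Finset.mem_union_right _ (Finset.mem_image.2 ⟨(bs (ρ, j), g + 1), Finset.mem_product.2
        ⟨hmB _ hbX hBb, Finset.mem_Icc.2 ⟨by omega, by omega⟩⟩, hn.symm⟩)
    · refine Finset.mem_union_left _ (Finset.mem_biUnion.2 ⟨(ρ, j), Finset.mem_product.2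
        ⟨Finset.mem_range.2 h3, Finset.mem_range.2 (Nat.lt_succ_of_le ?_)⟩, ?_⟩)
      · rw [Nat.le_div_iff_mul_le (by positivity)]
        have h7 : s * L * j ≤ bs (ρ, j) := Nat.le_add_left _ _
        calc j * (s * L) = s * L * j := mul_comm _ _
          _ ≤ X := h7.trans hbX
      · rw [if_neg hBb]
        refine Finset.mem_image.2 ⟨g + 1, ?_, hn.symm⟩
        rw [hn] at hPn
        exact hm _ hBb _ (by omega) (by omega) hPn
  · have hc1 : (bases.biUnion fun p => (if B (bs p) then ∅ else S (bs p)).image fun g => bs p + s * g).card ≤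
        s * (X / (s * L) + 1) * M := by
      refine Finset.card_biUnion_le.trans ((Finset.sum_le_card_nsmul _ _ M fun p _ => ?_).trans ?_)
      · refine Finset.card_image_le.trans ?_
        split_ifs with h
        · simp
        · exact hS _ h
      · rw [hbases, Finset.card_product, Finset.card_range, Finset.card_range, smul_eq_mul]
    have hc2 : ((SB ×ˢ Finset.Icc 1 L).image fun q => q.1 + s * q.2).card ≤ SB.card * L := by
      refine Finset.card_image_le.trans ?_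
      rw [Finset.card_product, Nat.card_Icc, Nat.add_sub_cancel]
    have hc : ((Finset.range s ∪ ((bases.biUnion fun p => (if B (bs p) then ∅ else S (bs p)).image fun g => bs p + s * g) ∪
        (SB ×ˢ Finset.Icc 1 L).image fun q => q.1 + s * q.2)).card : ℝ) ≤
        s + (s * ((X / (s * L) : ℕ) + 1) * M + SB.card * L) := by
      have h8 := Finset.card_union_le (Finset.range s) ((bases.biUnion fun p =>
        (if B (bs p) then ∅ else S (bs p)).image fun g => bs p + s * g) ∪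
        (SB ×ˢ Finset.Icc 1 L).image fun q => q.1 + s * q.2)
      have h9 := Finset.card_union_le (bases.biUnion fun p =>
        (if B (bs p) then ∅ else S (bs p)).image fun g => bs p + s * g)
        ((SB ×ˢ Finset.Icc 1 L).image fun q => q.1 + s * q.2)
      rw [Finset.card_range] at h8
      have h10 := h8.trans (Nat.add_le_add_left (h9.trans (Nat.add_le_add hc1 hc2)) _)
      exact_mod_cast h10
    refine hc.trans ?_
    have h11 : ((X / (s * L) : ℕ) : ℝ) ≤ X / (s * L) := by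
      refine Nat.cast_div_le.trans ?_
      push_cast
      exact le_rfl
    have h12 : (s : ℝ) * ((X / (s * L) : ℕ) + 1) * M ≤ (X : ℝ) * M / L + s * M := by
      calc (s : ℝ) * ((X / (s * L) : ℕ) + 1) * M ≤ s * ((X : ℝ) / (s * L) + 1) * M := by gcongr
        _ = X * M / L + s * M := by field_simp
    have hX0 : (0 : ℝ) ≤ X := Nat.cast_nonneg X
    have h13 : (X : ℝ) * M / L ≤ ε * X / 3 := by
      rw [div_le_div_iff₀ hL0 (by norm_num)]
      rw [div_lt_iff₀ hε] at hL
      nlinarith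
    have h14 : (SB.card : ℝ) * L ≤ ε * X / 3 := by
      calc (SB.card : ℝ) * L ≤ (ε / (3 * L) * X) * L := by gcongr
        _ = ε * X / 3 := by field_simp
    have h15 : (s : ℝ) + s * M ≤ ε * X / 3 := by
      have h16 : 3 * ((s : ℝ) + s * M) / ε < X :=
        hX₂.trans_le (by exact_mod_cast (le_max_right _ _).trans hX)
      rw [div_lt_iff₀ hε] at h16
      linarith
    linarith

/-- **from windows to density zero**, with a stride and with exceptional base points -/
theorem rare_dens {σ : Type} [Fintype σ] [DecidableEq σ] (x : ℕ → σ → ℂ) (s : ℕ) (hs : 1 ≤ s)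
    (val : ℕ → ℕ → σ → ℂ) (τ₀ : ℕ) (B : ℕ → Prop) (hB : DZ B)
    (hnr : ∀ L Δ : ℕ, DZ fun n => ¬ NoRel (fun p : Fin L × σ => val n (p.1 + 1) p.2) Δ)
    (hlink : ∀ n, ¬ B n → ∃ w : Fin τ₀ → ℂ, ∀ g, 1 ≤ g → ∀ t,
      x (n + s * g) t - val n g t ∈ Submodule.span ℚ (insert 1 (Set.range w))) : Rare x := by
  classical
  intro d δ e τ A B' ε hε
  set Q : ℕ → ℕ → Prop := fun n m => ∀ L ≤ m, ∀ Δ ≤ m, NoRel (fun p : Fin L × σ => val n (p.1 + 1) p.2) Δ with hQ
  set size : ℕ → ℕ := fun n => Nat.findGreatest (Q n) n with hsize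
  set I := {n : ℕ // ¬ B n} with hI
  have hInp : Inp (fun _ Δ => Δ + 1) (fun i : I => size i) (fun i : I => val i) := by
    intro N Δ H n hsz g hg hgH P hP hP0
    have h1 : 1 ≤ H + 2 := by omega
    have h2 : H + 2 ≤ (H + 2) ^ (Δ + 1) := Nat.le_self_pow (by omega) _
    have h3 : Δ + 1 < (H + 2) ^ (Δ + 1) := Nat.lt_pow_self (by omega)
    have hsz' : (H + 2) ^ (Δ + 1) ≤ size n := hsz
    have h4 : Q n (size n) := Nat.findGreatest_of_ne_zero (P := Q n) (m := size n) (n := (n : ℕ)) rfl (by omega)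
    have h5 := h4 H (by omega) Δ (by omega)
    set φ : Fin N × σ → Fin H × σ := fun x => (⟨g x.1 - 1, by have := hgH x.1; omega⟩, x.2) with hφ
    have hφi : Function.Injective φ := by
      rintro ⟨i, s⟩ ⟨j, t⟩ hij
      simp only [hφ, Prod.mk.injEq, Fin.mk.injEq] at hij
      have hi := hgH i
      have hj := hgH j
      have : g i = g j := by omega
      rw [hg this, hij.2]
    refine MvPolynomial.rename_injective φ hφi ?_
    rw [map_zero]
    refine h5 _ ((MvPolynomial.totalDegree_rename_le _ _).trans hP) ?_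
    rw [MvPolynomial.aeval_rename]
    have h6 : ((fun x : Fin H × σ => val n (x.1 + 1) x.2) ∘ φ) = fun x : Fin N × σ => val n (g x.1) x.2 := by
      funext x
      simp only [Function.comp_apply, hφ]
      have := hgH x.1
      congr 1
      omega
    rw [h6]
    exact hP0
  obtain ⟨E, hE⟩ := win2 (fun _ Δ => Δ + 1) (σ := σ) d δ e τ τ₀ A B'
  obtain ⟨L, hL1, hcount⟩ := count_stride (τ + τ₀) s hs ε hε
  set m := (L + 2) ^ E with hm
  have hbad : DZ fun n => B n ∨ (n < m ∨ ∃ p ∈ Finset.range (m + 1) ×ˢ Finset.range (m + 1),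
      ¬ NoRel (fun q : Fin p.1 × σ => val n (q.1 + 1) q.2) p.2) :=
    hB.or ((DZ.lt m).or (DZ.union _ fun p _ => hnr p.1 p.2))
  obtain ⟨X₀, hX₀⟩ := hcount _ hbad
  refine ⟨X₀, fun υ _ w T hT hD X hX => hX₀ _ (fun n hn => ?_) X hX⟩
  push Not at hn
  obtain ⟨hnB, hnm, hnr'⟩ := hn
  have hsz : m ≤ size n := Nat.le_findGreatest hnm fun L' hL' Δ hΔ => hnr' (L', Δ) (Finset.mem_product.2
    ⟨Finset.mem_range.2 (by omega), Finset.mem_range.2 (by omega)⟩)
  obtain ⟨S, hS, hmS⟩ := hE ℂ I (fun i => size i) (fun i => val i) (fun i g t => x (i + s * g) t) hInp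
    (fun i => by
      obtain ⟨w, hw⟩ := hlink i i.2
      exact ⟨w, fun g hg t => hw g hg t⟩) L ⟨n, hnB⟩ hsz υ w T hT hD
  refine ⟨S, hS, fun g hg1 hgL hbad => ?_⟩
  by_contra hgS
  exact hmS g hg1 hgL hgS hbad

end Pool.Agent.X120.Soft
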