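import Pool.Agent.X120.Soft.FinB

/-!
# Exponential sequences have exceptional sets of density zero
-/

set_option autoImplicit false

open Module Polynomial Filter

namespace Pool.Agent.X120.Soft

open Pool.Agent.Y916.Om Pool.Agent.X120.Rec

theorem pow_inj {ρ : ℂ} (h0 : ρ ≠ 0) (h1 : ‖ρ‖ ≠ 1) : Function.Injective fun n : ℕ => ρ ^ n := by
  intro a b hab
  have h2 : ‖ρ‖ ^ a = ‖ρ‖ ^ b := by
    rw [← norm_pow, ← norm_pow]
    exact congrArg _ hab
  exact pow_right_injective₀ (norm_pos_iff.2 h0) h1 h2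

theorem rareE {r : ℕ} (f : Fin r → ℂ[X]) (hf : ∀ s m, IsAlgebraic ℚ ((f s).coeff m)) (hf0 : ∀ s, (f s).eval 0 ≠ 0)
    (hind : MulIndep f) (ρ : ℂ) (hρ : IsAlgebraic ℚ ρ) (hρ0 : ρ ≠ 0) (hρ1 : ‖ρ‖ ≠ 1)
    (κ : Fin r → ℂ) (hκ0 : ∀ s, κ s ≠ 0) :
    Rare fun n s => Complex.log (κ s ^ n * (f s).eval (ρ ^ n)) := by
  classical
  intro d δ e τ A B ε hε
  obtain ⟨C, hC⟩ := fullB (k := 0) (fun _ => f) (fun _ => hf) (fun _ => hf0) (fun _ => hind) (fun _ => ρ) (fun _ => hρ)
    (fun _ => hρ0) (fun _ => hρ1) (fun _ => κ) (fun _ => hκ0) d δ e τ A B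
  have hfne : ∀ s, f s ≠ 0 := by
    rintro s h
    apply hf0 s
    rw [h, eval_zero]
  have hfin : {n : ℕ | ∃ s, (f s).eval (ρ ^ n) = 0}.Finite := by
    have h1 : {n : ℕ | ∃ s, (f s).eval (ρ ^ n) = 0} = ⋃ s, (fun n : ℕ => ρ ^ n) ⁻¹' {x | (f s).IsRoot x} := by
      ext n
      simp [IsRoot]
    rw [h1]
    refine Set.finite_iUnion fun s => Set.Finite.preimage (pow_inj hρ0 hρ1).injOn ?_
    exact finite_setOf_isRoot (hfne s)
  have hlim : ∀ᶠ X : ℕ in atTop, C * Real.log X + hfin.toFinset.card ≤ ε * X := by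
    have h1 : Tendsto (fun X : ℕ => Real.log X / X) atTop (nhds 0) := by
      have h2 := Real.isLittleO_log_id_atTop.tendsto_div_nhds_zero
      exact h2.comp tendsto_natCast_atTop_atTop
    have h3 : Tendsto (fun X : ℕ => C * (Real.log X / X) + hfin.toFinset.card * (1 / (X : ℝ))) atTop
        (nhds (C * 0 + hfin.toFinset.card * 0)) :=
      (h1.const_mul C).add (tendsto_one_div_atTop_nhds_zero_nat.const_mul _)
    rw [mul_zero, mul_zero, add_zero] at h3
    filter_upwards [h3.eventually (gt_mem_nhds hε), eventually_gt_atTop 0] with X hX hX0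
    have hX1 : (0 : ℝ) < X := by exact_mod_cast hX0
    have h4 : C * Real.log X + hfin.toFinset.card =
        (C * (Real.log X / X) + hfin.toFinset.card * (1 / (X : ℝ))) * X := by
      field_simp
    rw [h4]
    exact mul_le_mul_of_nonneg_right hX.le hX1.le
  obtain ⟨X₁, hX₁⟩ := eventually_atTop.1 hlim
  refine ⟨max X₁ 2, fun υ _ w T hT hD X hX => ?_⟩
  obtain ⟨S, hS, hm⟩ := hC υ w T hT hD X ((le_max_right _ _).trans hX)
  refine ⟨S.image (fun n => n 0) ∪ hfin.toFinset, ?_, fun n h1 hnX hbad => ?_⟩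
  · refine le_trans ?_ (hX₁ X ((le_max_left _ _).trans hX))
    have h5 : (S.image (fun n => n 0) ∪ hfin.toFinset).card ≤ S.card + hfin.toFinset.card :=
      (Finset.card_union_le _ _).trans (Nat.add_le_add_right Finset.card_image_le _)
    have h6 : (S.card : ℝ) ≤ C * Real.log X := by
      refine hS.trans (le_of_eq ?_)
      rw [pow_zero, mul_one]
    calc ((S.image (fun n => n 0) ∪ hfin.toFinset).card : ℝ) ≤ (S.card : ℝ) + hfin.toFinset.card := by exact_mod_cast h5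
      _ ≤ _ := by linarith
  · by_cases hz : ∃ s, (f s).eval (ρ ^ n) = 0
    · exact Finset.mem_union_right _ (hfin.mem_toFinset.2 hz)
    · push Not at hz
      refine Finset.mem_union_left _ (Finset.mem_image.2 ⟨fun _ => n, ?_, rfl⟩)
      refine hm (fun _ => n) (fun _ => ⟨h1, hnX⟩) (fun p => Complex.log (κ p.2 ^ n * (f p.2).eval (ρ ^ n))) ?_ ?_
      · rintro ⟨i, s⟩
        exact Complex.exp_log (mul_ne_zero (pow_ne_zero _ (hκ0 s)) (hz s))
      · obtain ⟨K, hK1, hK2, hK3⟩ := hbad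
        exact ⟨K, hK1, hK2, hK3.reindex (Equiv.uniqueProd (Fin r) (Fin 1))⟩

end Pool.Agent.X120.Soft
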