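import Pool.Agent.X120.Soft.Tup

/-!
# Relations between logarithms
-/

set_option autoImplicit false

open Module

namespace Pool.Agent.X120.Soft

open Pool.Agent.Y916.Om Pool.Agent.X120.Rec

/-- relations over `V` in terms of constants -/
theorem related_badW {κ υ υ₀ : Type} [Fintype κ] [DecidableEq κ] {δ d : ℕ} {V : Submodule ℚ ℂ} {w : υ → ℂ}
    (hw : ∀ v ∈ V, v ∈ Submodule.span ℚ (insert 1 (Set.range w))) (u₀ : υ₀ → ℂ) {l x : κ → ℂ}
    (hx : ∀ p, l p - x p ∈ Submodule.span ℚ (Set.range u₀)) (h : Related δ d V l) :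
    BadW d δ (1 + δ) (Sum.elim w u₀) x := by
  classical
  have hb1 : BadW d δ 1 (Sum.elim w u₀) l := by
    obtain ⟨L, hL, hLd, P, hP0, hPd, hPc, hPv⟩ := h
    refine ⟨L, hL, hLd, P, hP0, hPd, fun s => ?_, hPv⟩
    rw [pow_one]
    have hle : Submodule.span L (V : Set ℂ) ≤ Submodule.span L (insert (1 : ℂ) (Set.range (Sum.elim w u₀))) := by
      refine Submodule.span_le.2 fun v hv => ?_
      have h1 := hw v hv
      have h2 : Submodule.span ℚ (insert (1 : ℂ) (Set.range w)) ≤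
          (Submodule.span L (insert (1 : ℂ) (Set.range (Sum.elim w u₀)))).restrictScalars ℚ := by
        refine Submodule.span_le.2 ?_
        rintro _ (rfl | ⟨j, rfl⟩)
        · exact Submodule.subset_span (Set.mem_insert _ _)
        · exact Submodule.subset_span (Set.mem_insert_of_mem _ ⟨Sum.inl j, rfl⟩)
      exact h2 h1
    exact hle (hPc s)
  have hlin : LinearIndependent ℚ (fun p q : κ => if p = q then (1 : ℚ) else 0) := by
    have h1 := (Pi.basisFun ℚ κ).linearIndependent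
    have h2 : (fun p q : κ => if p = q then (1 : ℚ) else 0) = ⇑(Pi.basisFun ℚ κ) := by
      funext p q
      rw [Pi.basisFun_apply, Pi.single_apply]
      simp only [eq_comm]
    rw [h2]
    exact h1
  refine BadW.linear _ hlin (fun p => ?_) hb1
  have h3 : ∑ t : κ, (((if p = t then (1 : ℚ) else 0 : ℚ)) : ℂ) * x t = x p := by
    rw [Finset.sum_eq_single p]
    · simp
    · intro q _ hq
      rw [if_neg (Ne.symm hq)]
      simp
    · intro h
      exact absurd (Finset.mem_univ _) h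
  rw [h3]
  refine Submodule.span_mono ?_ (hx p)
  rintro _ ⟨j, rfl⟩
  exact Set.mem_insert_of_mem _ ⟨Sum.inr j, rfl⟩

/-- two logarithms of the same number -/
theorem log_sub_mem {l u : ℂ} (hl : Complex.exp l = u) :
    l - Complex.log u ∈ Submodule.span ℚ (Set.range fun _ : Unit => (2 * Real.pi * Complex.I : ℂ)) := by
  have hu : u ≠ 0 := by
    rw [← hl]
    exact Complex.exp_ne_zero l
  have h1 : Complex.exp (l - Complex.log u) = 1 := by
    rw [Complex.exp_sub, hl, Complex.exp_log hu, div_self hu]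
  obtain ⟨z, hz⟩ := Complex.exp_eq_one_iff.1 h1
  rw [hz]
  have h2 : (z : ℂ) * (2 * Real.pi * Complex.I) = (z : ℚ) • (2 * Real.pi * Complex.I : ℂ) := by
    rw [Rat.smul_def]
    push_cast
    rfl
  rw [h2]
  exact Submodule.smul_mem _ _ (Submodule.subset_span ⟨(), rfl⟩)

/-- **relations between the logarithms of the terms of several sequences** -/
theorem final {k : ℕ} {σ : Type} [Fintype σ] [DecidableEq σ] (u : Fin (k + 1) → ℕ → σ → ℂ)
    (h : ∀ i, Rare fun n s => Complex.log (u i n s)) (δ d D : ℕ) (ε : ℝ) (hε : 0 < ε) :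
    ∃ T₀ : ℕ, ∀ V : Submodule ℚ ℂ, Module.Finite ℚ V → finrank ℚ V ≤ D → ∀ T : ℕ, T₀ ≤ T →
      ∃ S : Finset (Fin (k + 1) → ℕ), (S.card : ℝ) ≤ ε * (T : ℝ) ^ (k + 1) ∧
      ∀ n : Fin (k + 1) → ℕ, (∀ i, 1 ≤ n i ∧ n i ≤ T) → ∀ l : Fin (k + 1) × σ → ℂ,
        (∀ p, Complex.exp (l p) = u p.1 (n p.1) p.2) → Related δ d V l → n ∈ S := by
  classical
  obtain ⟨X₀, htup⟩ := tuplesR (k + 1) (fun i n s => Complex.log (u i n s)) h d δ (1 + δ) (D + 1) 1 1 ε hε
  refine ⟨X₀, fun V hV hVD T hT => ?_⟩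
  obtain ⟨w, c, hwc⟩ := coords V hV D hVD
  obtain ⟨S, hS, hmem⟩ := htup (Fin D ⊕ Unit) (Sum.elim w fun _ => (2 * Real.pi * Complex.I : ℂ)) Finset.univ (by
    rw [Finset.card_univ, Fintype.card_sum, Fintype.card_fin, Fintype.card_unit]) (Dom.univ _) T hT
  refine ⟨S, hS, fun n hn l hl hrel => hmem n hn (related_badW (fun v hv => ?_) _ (fun p => ?_) hrel)⟩
  · rw [hwc v hv]
    refine Submodule.sum_mem _ fun j _ => ?_
    have h2 : ((c v j : ℚ) : ℂ) * w j = (c v j) • w j := by rw [Rat.smul_def]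
    rw [h2]
    exact Submodule.smul_mem _ _ (Submodule.subset_span (Set.mem_insert_of_mem _ ⟨j, rfl⟩))
  · exact log_sub_mem (hl p)

end Pool.Agent.X120.Soft
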