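import Pool.Agent.X120.Rec.Lin
import Pool.Agent.Y916.Al.WinH

/-!
# Logarithms of finitely many numbers `1 + β / ξ`, `ξ` large
-/

set_option autoImplicit false

open Module

namespace Pool.Agent.X120.Soft

open Pool.Agent.Y916.Om Pool.Agent.Y916.Ari Pool.Agent.Y916.Al

/-- algebraic numbers are admissible -/
theorem exists_adm {z : ℂ} (hz : IsAlgebraic ℚ z) : ∃ d H : ℕ, Adm d H z := by
  obtain ⟨p, hp0, hp⟩ := (IsFractionRing.isAlgebraic_iff ℤ ℚ ℂ).2 hz
  refine ⟨p.natDegree, ∑ i ∈ p.support, (p.coeff i).natAbs, p, hp0, le_rfl, fun l => ?_, hp⟩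
  by_cases hl : l ∈ p.support
  · rw [Int.abs_eq_natAbs]
    exact_mod_cast Finset.single_le_sum (f := fun i => (p.coeff i).natAbs) (fun _ _ => Nat.zero_le _) hl
  · rw [Polynomial.notMem_support_iff.1 hl]
    simp only [abs_zero]
    positivity

theorem norel_logs {r : ℕ} (β : Fin r → ℂ) (hinj : Function.Injective β) (hβ0 : ∀ i, β i ≠ 0)
    (hβ : ∀ i, IsAlgebraic ℚ (β i)) (Δ m Ah : ℕ) : ∃ R₀ : ℝ, ∀ (K₁ : IntermediateField ℚ ℂ) (ξ : K₁) (X : ℝ),
      FiniteDimensional ℚ K₁ → finrank ℚ K₁ ≤ m → Pt K₁ ξ X → R₀ ≤ ‖(ξ : ℂ)‖ → X ≤ ‖(ξ : ℂ)‖ ^ Ah →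
      NoRel (fun i => Complex.log (1 + β i / ξ)) Δ := by
  classical
  choose d H hdH using fun i => exists_adm (hβ i)
  set d' := (∑ i, d i) + 1 with hd'
  set H' := ∑ i, H i with hH'
  obtain ⟨E, hE⟩ := windowH r d' Δ 0 1 1 m Ah
  refine ⟨((H' : ℝ) + 2) ^ E, fun K₁ ξ X hf hm hPt hξ hX P hP hP0 => ?_⟩
  obtain ⟨S, hS, hwin⟩ := hE H' K₁ ξ X hf hm hPt hξ hX (Fin 0) (fun i => i.elim0) Finset.univ (by simp) (Dom.univ _)
  have hS0 : S = ∅ := Finset.card_eq_zero.1 (Nat.le_zero.1 hS)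
  subst hS0
  have h1 := hwin β hinj (fun i => ⟨Finset.notMem_empty _, hβ0 i, by
    obtain ⟨p, h1, h2, h3, h4⟩ := hdH i
    refine ⟨p, h1, h2.trans ?_, fun l => (h3 l).trans ?_, h4⟩
    · exact (Finset.single_le_sum (f := d) (fun _ _ => Nat.zero_le _) (Finset.mem_univ i)).trans (Nat.le_succ _)
    · exact_mod_cast Finset.single_le_sum (f := H) (fun _ _ => Nat.zero_le _) (Finset.mem_univ i)⟩)
    ⊥ inferInstance (by rw [IntermediateField.finrank_bot]; omega) (fun i => Complex.log (1 + β i / ξ))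
    (fun i => ⟨1, one_ne_zero, by simp⟩)
    (MvPolynomial.rename Sum.inr (MvPolynomial.map (algebraMap ℚ (⊥ : IntermediateField ℚ ℂ)) P))
    ((MvPolynomial.totalDegree_rename_le _ _).trans
      ((Finset.sup_mono (MvPolynomial.support_map_subset _ _)).trans hP)) (by
      rw [MvPolynomial.aeval_rename, MvPolynomial.aeval_map_algebraMap]
      exact hP0)
  rw [MvPolynomial.aeval_rename, MvPolynomial.aeval_map_algebraMap] at h1
  have h2 : (MvPolynomial.map (algebraMap ℚ ℂ) P : MvPolynomial (Fin r) ℂ) = 0 := by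
    rw [← MvPolynomial.aeval_X_left_apply (MvPolynomial.map (algebraMap ℚ ℂ) P), MvPolynomial.aeval_map_algebraMap]
    exact h1
  exact MvPolynomial.map_injective _ (algebraMap ℚ ℂ).injective (h2.trans (map_zero _).symm)

/-- linear combinations -/
theorem norel_linear {κ κ' : Type} [Fintype κ] [Fintype κ'] [DecidableEq κ] [DecidableEq κ'] {y : κ' → ℂ} {Δ : ℕ}
    (h : NoRel y Δ) (M : κ → κ' → ℚ) (hM : LinearIndependent ℚ M) :
    NoRel (fun s => ∑ t, ((M s t : ℚ) : ℂ) * y t) Δ := by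
  classical
  intro P hP hP0
  obtain ⟨N, hN⟩ := Rec.exists_rinv M hM
  set L : κ → MvPolynomial κ' ℚ := fun s => ∑ t, MvPolynomial.C (M s t) * MvPolynomial.X t with hL
  set Q : MvPolynomial κ' ℚ := MvPolynomial.aeval L P with hQ
  have hLD : ∀ s, DC 1 (⊤ : Submodule ℚ ℚ) (L s) := by
    intro s
    refine ⟨?_, fun _ => Submodule.mem_top⟩
    refine MvPolynomial.totalDegree_finsetSum_le fun t _ => ?_
    refine (MvPolynomial.totalDegree_mul _ _).trans ?_
    rw [MvPolynomial.totalDegree_C, MvPolynomial.totalDegree_X]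
  have hQd : Q.totalDegree ≤ Δ :=
    (DC.subst' (V := (⊤ : Submodule ℚ ℚ)) Submodule.mem_top L hLD (P := P) ⟨hP, fun _ => Submodule.mem_top⟩).1
  have hQ0 : Q = 0 := by
    refine h Q hQd ?_
    rw [hQ, MvPolynomial.comp_aeval_apply]
    have h3 : (fun i => MvPolynomial.aeval y (L i)) = fun s => ∑ t, ((M s t : ℚ) : ℂ) * y t := by
      funext s
      rw [hL]
      simp
    rw [h3]
    exact hP0
  have hid : (MvPolynomial.aeval (fun t => ∑ s, MvPolynomial.C (N t s) * MvPolynomial.X s) :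
      MvPolynomial κ' ℚ →ₐ[ℚ] MvPolynomial κ ℚ).comp (MvPolynomial.aeval L) = AlgHom.id ℚ _ := by
    refine MvPolynomial.algHom_ext fun s => ?_
    rw [AlgHom.comp_apply, MvPolynomial.aeval_X, AlgHom.id_apply, hL, map_sum]
    have h1 : ∀ t, MvPolynomial.aeval (fun t => ∑ s, MvPolynomial.C (N t s) * MvPolynomial.X s)
        (MvPolynomial.C (M s t) * MvPolynomial.X t : MvPolynomial κ' ℚ) =
        ∑ s', MvPolynomial.C (M s t * N t s') * (MvPolynomial.X s' : MvPolynomial κ ℚ) := by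
      intro t
      rw [map_mul, MvPolynomial.aeval_C, MvPolynomial.aeval_X, MvPolynomial.algebraMap_eq, Finset.mul_sum]
      exact Finset.sum_congr rfl fun s' _ => by rw [MvPolynomial.C_mul]; ring
    rw [Finset.sum_congr rfl fun t _ => h1 t, Finset.sum_comm]
    have h2 : ∀ s', ∑ t, MvPolynomial.C (M s t * N t s') * (MvPolynomial.X s' : MvPolynomial κ ℚ) =
        MvPolynomial.C (if s = s' then 1 else 0) * MvPolynomial.X s' := by
      intro s'
      rw [← Finset.sum_mul, ← hN s s', map_sum]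
    rw [Finset.sum_congr rfl fun s' _ => h2 s', Finset.sum_eq_single s]
    · simp
    · intro s' _ hs'
      rw [if_neg (Ne.symm hs')]
      simp
    · intro hs
      exact absurd (Finset.mem_univ s) hs
  have h4 := DFunLike.congr_fun hid P
  rw [AlgHom.comp_apply, AlgHom.id_apply] at h4
  rw [← h4, ← hQ, hQ0, map_zero]

/-- from independence for large indices to the input of the window theorem -/
theorem exists_size {σ : Type} (val : ℕ → ℕ → σ → ℂ)
    (h : ∀ L Δ : ℕ, ∃ n₀ : ℕ, ∀ n ≥ n₀, NoRel (fun x : Fin L × σ => val n (x.1 + 1) x.2) Δ) :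
    ∃ size : ℕ → ℕ, Inp (fun _ Δ => Δ + 1) size val ∧ ∀ m, ∃ n₁, ∀ n ≥ n₁, m ≤ size n := by
  classical
  choose n₀ hn₀ using h
  set F : ℕ → ℕ := fun m => ∑ L ∈ Finset.range (m + 1), ∑ Δ ∈ Finset.range (m + 1), n₀ L Δ with hF
  have hFle : ∀ m L Δ, L ≤ m → Δ ≤ m → n₀ L Δ ≤ F m := by
    intro m L Δ hL hΔ
    refine (Finset.single_le_sum (f := fun Δ => n₀ L Δ) (fun _ _ => Nat.zero_le _)
      (Finset.mem_range.2 (Nat.lt_succ_of_le hΔ))).trans ?_
    exact Finset.single_le_sum (f := fun L => ∑ Δ ∈ Finset.range (m + 1), n₀ L Δ) (fun _ _ => Nat.zero_le _)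
      (Finset.mem_range.2 (Nat.lt_succ_of_le hL))
  refine ⟨fun n => Nat.findGreatest (fun m => F m ≤ n) n, ?_, fun m => ⟨max m (F m), fun n hn => ?_⟩⟩
  · intro N Δ H n hsize g hg hgH P hP hP0
    simp only at hsize
    set m := Nat.findGreatest (fun m => F m ≤ n) n with hm
    have h1 : 1 ≤ H + 2 := by omega
    have h2 : H + 2 ≤ (H + 2) ^ (Δ + 1) := Nat.le_self_pow (by omega) _
    have h3 : Δ + 1 < (H + 2) ^ (Δ + 1) := Nat.lt_pow_self (by omega)
    have h4 : F m ≤ n := Nat.findGreatest_of_ne_zero (P := fun m => F m ≤ n) hm.symm (by omega)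
    have h5 : n₀ H Δ ≤ n := (hFle m H Δ (by omega) (by omega)).trans h4
    set φ : Fin N × σ → Fin H × σ := fun x => (⟨g x.1 - 1, by have := hgH x.1; omega⟩, x.2) with hφ
    have hφi : Function.Injective φ := by
      rintro ⟨i, s⟩ ⟨j, t⟩ hij
      simp only [hφ, Prod.mk.injEq, Fin.mk.injEq] at hij
      have hi := hgH i
      have hj := hgH j
      have : g i = g j := by omega
      rw [hg this, hij.2]
    refine MvPolynomial.rename_injective φ hφi ?_
    rw [map_zero]
    refine hn₀ H Δ n h5 _ ((MvPolynomial.totalDegree_rename_le _ _).trans hP) ?_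
    rw [MvPolynomial.aeval_rename]
    have h6 : ((fun x : Fin H × σ => val n (x.1 + 1) x.2) ∘ φ) = fun x : Fin N × σ => val n (g x.1) x.2 := by
      funext x
      simp only [Function.comp_apply, hφ]
      have := hgH x.1
      congr 1
      omega
    rw [h6]
    exact hP0
  · exact Nat.le_findGreatest ((le_max_left _ _).trans hn) ((le_max_right _ _).trans hn)

end Pool.Agent.X120.Soft
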