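import Pool.Agent.X120.Soft.Nor
import Pool.Agent.X120.Rec.Core

/-!
# Exceptional sets of density zero
-/

set_option autoImplicit false

open Module Filter

namespace Pool.Agent.X120.Soft

open Pool.Agent.Y916.Om Pool.Agent.Y916.Ari Pool.Agent.Y916.Al Pool.Agent.X120.Rec

/-- the indices for which the numbers `x n s` satisfy a relation have density zero, uniformly in the constants `w` -/
def Rare {σ : Type} (x : ℕ → σ → ℂ) : Prop :=
  ∀ (d δ e τ A B : ℕ) (ε : ℝ), 0 < ε → ∃ X₀ : ℕ, ∀ (υ : Type) [Fintype υ] (w : υ → ℂ) (T : Finset υ), T.card = τ →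
    Dom A B w T → ∀ X : ℕ, X₀ ≤ X → ∃ S : Finset ℕ, (S.card : ℝ) ≤ ε * X ∧
      ∀ n, 1 ≤ n → n ≤ X → BadW d δ e w (x n) → n ∈ S

/-- counting by windows of the same length -/
theorem count_windows (M : ℕ) (ε : ℝ) (hε : 0 < ε) : ∃ L : ℕ, 1 ≤ L ∧ ∀ n₁ : ℕ, ∃ X₀ : ℕ, ∀ P : ℕ → Prop,
    (∀ n ≥ n₁, ∃ S : Finset ℕ, S.card ≤ M ∧ ∀ g, 1 ≤ g → g ≤ L → P (n + g) → n + g ∈ S) →
    ∀ X ≥ X₀, ∃ S : Finset ℕ, (S.card : ℝ) ≤ ε * X ∧ ∀ n, 1 ≤ n → n ≤ X → P n → n ∈ S := by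
  classical
  obtain ⟨L, hL⟩ := exists_nat_gt (2 * M / ε)
  have hL0 : (0 : ℝ) < L := lt_of_le_of_lt (by positivity) hL
  have hL1 : 1 ≤ L := by exact_mod_cast hL0
  refine ⟨L, hL1, fun n₁ => ?_⟩
  obtain ⟨X₀, hX₀⟩ := exists_nat_gt (2 * ((n₁ : ℝ) + 1 + M) / ε)
  refine ⟨X₀, fun P hP X hX => ?_⟩
  choose! S hS hm using hP
  refine ⟨Finset.range (n₁ + 1) ∪ (Finset.range (X / L + 1)).biUnion fun j => S (n₁ + j * L), ?_, ?_⟩
  swap
  · intro n h1 hnX hPn
    by_cases hn : n ≤ n₁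
    · exact Finset.mem_union_left _ (Finset.mem_range.2 (by omega))
    push Not at hn
    refine Finset.mem_union_right _ (Finset.mem_biUnion.2 ⟨(n - n₁ - 1) / L, ?_, ?_⟩)
    · refine Finset.mem_range.2 (Nat.lt_succ_of_le (Nat.div_le_div_right (by omega)))
    · have h2 := Nat.div_add_mod (n - n₁ - 1) L
      have h3 := Nat.mod_lt (n - n₁ - 1) hL1
      set a := (n - n₁ - 1) / L with ha
      set b := (n - n₁ - 1) % L with hb
      have h4 : n = n₁ + a * L + (b + 1) := by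
        rw [mul_comm L a] at h2
        omega
      rw [h4]
      rw [h4] at hPn
      exact hm _ (by omega) (b + 1) (by omega) (by omega) hPn
  · have h1 : ((Finset.range (n₁ + 1) ∪ (Finset.range (X / L + 1)).biUnion fun j => S (n₁ + j * L)).card : ℝ) ≤
        (n₁ + 1) + (X / L + 1) * M := by
      have h2 : (Finset.range (n₁ + 1) ∪ (Finset.range (X / L + 1)).biUnion fun j => S (n₁ + j * L)).card ≤
          (n₁ + 1) + (X / L + 1) * M := by
        refine (Finset.card_union_le _ _).trans (Nat.add_le_add (by rw [Finset.card_range]) ?_)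
        refine Finset.card_biUnion_le.trans ((Finset.sum_le_card_nsmul _ _ M fun j _ => hS _ (by omega)).trans ?_)
        rw [Finset.card_range, smul_eq_mul]
      calc ((Finset.range (n₁ + 1) ∪ (Finset.range (X / L + 1)).biUnion fun j => S (n₁ + j * L)).card : ℝ) ≤
            (((n₁ + 1) + (X / L + 1) * M : ℕ) : ℝ) := by exact_mod_cast h2
        _ = (n₁ + 1) + (((X / L : ℕ) : ℝ) + 1) * M := by push_cast; ring
        _ ≤ (n₁ + 1) + ((X : ℝ) / L + 1) * M := by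
            gcongr
            exact Nat.cast_div_le
    have hXr : 2 * ((n₁ : ℝ) + 1 + M) / ε < X := hX₀.trans_le (by exact_mod_cast hX)
    have h5 : 2 * ((n₁ : ℝ) + 1 + M) < ε * X := by
      rw [div_lt_iff₀ hε] at hXr
      linarith
    have h6 : 2 * (M : ℝ) ≤ ε * L := by
      rw [div_lt_iff₀ hε] at hL
      linarith
    have h7 : (X : ℝ) / L * M ≤ ε * X / 2 := by
      rw [div_mul_eq_mul_div, div_le_iff₀ hL0]
      have h8 : (0 : ℝ) ≤ X := Nat.cast_nonneg X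
      nlinarith
    have h9 : ((X : ℝ) / L + 1) * M = X / L * M + M := by ring
    rw [h9] at h1
    linarith

/-- **from windows to density zero**: for the base point `n` the numbers `x (n + g)`, `g ≥ 1`, are up to `τ₀` constants
equal to linear combinations of the numbers `log (1 + β / ξ n)` with linearly independent vectors of coefficients -/
theorem rare_main {σ : Type} [Fintype σ] [DecidableEq σ] (x : ℕ → σ → ℂ) (K₁ : IntermediateField ℚ ℂ)
    [hK : FiniteDimensional ℚ K₁] (ξ : ℕ → K₁) (hξ : Tendsto (fun n => ‖(ξ n : ℂ)‖) atTop atTop) (Ah : ℕ) (Y : ℕ → ℝ)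
    (n₀ : ℕ) (hPt : ∀ n ≥ n₀, Pt K₁ (ξ n) (Y n) ∧ Y n ≤ ‖(ξ n : ℂ)‖ ^ Ah) (τ₀ : ℕ) (D : ℕ → ℕ → σ → (ℂ →₀ ℚ))
    (B : ℕ → Finset ℂ) (hB : ∀ L, ∀ β ∈ B L, β ≠ 0 ∧ IsAlgebraic ℚ β)
    (hDB : ∀ L, ∀ n ≥ n₀, ∀ g s, 1 ≤ g → g ≤ L → (D n g s).support ⊆ B L)
    (hDi : ∀ n ≥ n₀, ∀ L, LinearIndependent ℚ (fun p : Fin L × σ => D n (p.1 + 1) p.2))
    (hlink : ∀ n ≥ n₀, ∃ w : Fin τ₀ → ℂ, ∀ g, 1 ≤ g → ∀ s,
      x (n + g) s - (D n g s).sum (fun β c => (c : ℂ) * Complex.log (1 + β / ξ n)) ∈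
        Submodule.span ℚ (insert 1 (Set.range w))) : Rare x := by
  classical
  intro d δ e τ A B' ε hε
  set val : ℕ → ℕ → σ → ℂ := fun i g s => (D (n₀ + i) g s).sum (fun β c => (c : ℂ) * Complex.log (1 + β / ξ (n₀ + i)))
    with hval
  have hnr : ∀ L Δ : ℕ, ∃ i₀ : ℕ, ∀ i ≥ i₀, NoRel (fun p : Fin L × σ => val i (p.1 + 1) p.2) Δ := by
    intro L Δ
    set eB : Fin (B L).card ≃ B L := (B L).equivFin.symm with heB
    obtain ⟨R₀, hR₀⟩ := norel_logs (fun j => ((eB j : B L) : ℂ)) (fun a b h => eB.injective (Subtype.ext h))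
      (fun j => (hB L _ (eB j).2).1) (fun j => (hB L _ (eB j).2).2) Δ (finrank ℚ K₁) Ah
    obtain ⟨i₀, hi₀⟩ := (tendsto_atTop.1 hξ R₀).exists_forall_of_atTop
    refine ⟨i₀, fun i hi => ?_⟩
    obtain ⟨h1, h2⟩ := hPt (n₀ + i) (by omega)
    have h3 := hR₀ K₁ (ξ (n₀ + i)) (Y (n₀ + i)) hK le_rfl h1 (hi₀ _ (by omega)) h2
    set M : Fin L × σ → Fin (B L).card → ℚ := fun p j => D (n₀ + i) (p.1 + 1) p.2 (eB j) with hM
    have hMi : LinearIndependent ℚ M := by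
      have h4 := hDi (n₀ + i) (by omega) L
      rw [Fintype.linearIndependent_iff] at h4 ⊢
      intro c hc
      refine h4 c ?_
      ext β
      rw [Finsupp.finsetSum_apply]
      by_cases hβ : β ∈ B L
      · have h5 := congrFun hc (eB.symm ⟨β, hβ⟩)
        rw [Finset.sum_apply] at h5
        simpa [hM] using h5
      · refine Finset.sum_eq_zero fun p _ => ?_
        rw [Finsupp.smul_apply]
        have h6 : D (n₀ + i) (p.1 + 1) p.2 β = 0 := by
          by_contra h7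
          exact hβ (hDB L _ (by omega) _ _ (by omega) (by omega) (Finsupp.mem_support_iff.2 h7))
        rw [h6, smul_zero]
    have h5 := norel_linear h3 M hMi
    have h6 : (fun p : Fin L × σ => val i (p.1 + 1) p.2) =
        fun s => ∑ t, ((M s t : ℚ) : ℂ) * Complex.log (1 + ((eB t : B L) : ℂ) / ξ (n₀ + i)) := by
      funext p
      simp only [hval, hM]
      rw [Finsupp.sum_of_support_subset _ (hDB L (n₀ + i) (by omega) (p.1 + 1) p.2 (by omega) (by omega)) _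
        (by intro _ _; simp)]
      rw [← Finset.sum_coe_sort (B L), ← eB.sum_comp]
    rw [h6]
    exact h5
  obtain ⟨size, hInp, hsize⟩ := exists_size val hnr
  obtain ⟨E, hE⟩ := win2 (fun _ Δ => Δ + 1) (σ := σ) d δ e τ τ₀ A B'
  obtain ⟨L, hL1, hcount⟩ := count_windows (τ + τ₀) ε hε
  obtain ⟨i₁, hi₁⟩ := hsize ((L + 2) ^ E)
  obtain ⟨X₀, hX₀⟩ := hcount (n₀ + i₁)
  refine ⟨X₀, fun υ _ w T hT hD X hX => hX₀ _ (fun n hn => ?_) X hX⟩
  obtain ⟨i, rfl⟩ : ∃ i, n = n₀ + i := ⟨n - n₀, by omega⟩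
  obtain ⟨S, hS, hm⟩ := hE ℂ ℕ size val (fun i g s => x (n₀ + i + g) s) hInp
    (fun i => by
      obtain ⟨w, hw⟩ := hlink (n₀ + i) (by omega)
      exact ⟨w, fun g hg s => hw g hg s⟩) L i (hi₁ i (by omega)) υ w T hT hD
  refine ⟨S.image fun g => n₀ + i + g, Finset.card_image_le.trans hS, fun g hg1 hgL hbad => ?_⟩
  refine Finset.mem_image.2 ⟨g, ?_, rfl⟩
  by_contra hgS
  exact hm g hg1 hgL hgS hbad

end Pool.Agent.X120.Soft
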